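import Pool.Agent.H97.HV.Targets4
import Pool.Agent.H54.WM.SO
import Pool.Agent.H7.HD9.All9

/-!
# Embeddings of HOD(V_ ξ) at club many points
-/

open Ordinal Cardinal Order Set
open scoped ZFSet

universe u

namespace HD.HW.H17

open HD.PRK HD.HV Pool.Agent.H54.WM

theorem pemb_of_eq {γ ξ κ : Ordinal.{u}} {j jj : ZFSet.{u} → ZFSet.{u}}
    (hg : IsSuccLimit (min γ ξ)) (h : PEmb γ ξ κ j) (he : ∀ x, WV γ ξ x → jj x = j x) :
    PEmb γ ξ κ jj := by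
  refine ⟨fun x hx => ?_, fun φ v hv => ?_, fun x hx hxV => ?_, ?_⟩
  · rw [he x hx]
    exact h.map x hx
  · have e : jj ∘ v = j ∘ v := by
      funext n
      exact he _ (hv n)
    rw [e]
    exact h.elem φ v hv
  · have hx' : WV γ ξ x := HD.HW.WV_of_HW (HD.HW.mem_HW.2 ⟨hxV, hx⟩)
    rw [he x hx']
    exact h.fix x hx hxV
  · have hx' : WV γ ξ ξ.toZFSet :=
      ⟨HD.HW.nv_ord hg ξ, by rw [ZFSet.subset_vonNeumann, rank_toZFSet]⟩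
    rw [he _ hx']
    exact h.crit

/-- NEC. Embeddings at club many points. -/
theorem pf_NEC (h1 : HD.HW.T_MAI.{u}) (h2 : HD.HW.T_CLB.{u}) : HD.HW.T_NEC.{u} := by
  intro δ hδ hA K hK hδK hμ γ hF hV
  obtain ⟨η, -, θ, j, hj⟩ := HD.All.xa δ hδ 0
  obtain ⟨D', hD', -, -, h0⟩ := HD.All.xb δ η θ j hj
  have hδ0 : (0 : Ordinal.{u}) < δ := by
    rw [hD']
    exact (Cardinal.isSuccLimit_ord h0.le).bot_lt
  obtain ⟨D, g1, -, g3, g4⟩ := HD.All.gr δ hδ hA 0 hδ0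
  have hDK : D < K := Cardinal.ord_lt_ord.1 (g1.trans hδK)
  have hK0 : ℵ₀ < K := g3.2.2.1.trans hDK
  have hτ := Pool.Agent.H54.WM.SO.X g3.1 g3.2.1 g3.2.2.1 g4 hK hDK hμ
  obtain ⟨C, hC, hC'⟩ := h2 K hK hK0 hτ γ hF.lim hV
  refine ⟨C, hC, fun ξ hξ hξK hcof => ?_⟩
  obtain ⟨j, hB, hCC⟩ := hC' ξ hξ hξK hcof
  obtain ⟨M, jj, hW⟩ := h1 γ ξ K.ord j hB hCC
  refine ⟨hB.lξ, M, jj, hW.tra, hW.map, hW.elem, pemb_of_eq hB.gξ hB.emb hW.ext, ?_, hW.pow⟩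
  intro x hx
  constructor
  · intro hM
    refine hW.pow x hM fun y hy => ?_
    rw [ZFSet.mem_vonNeumann] at hx ⊢
    exact (ZFSet.rank_lt_of_mem hy).trans hx
  · intro hH
    exact hW.low x (HD.HW.mem_HW.2 ⟨hx, hH⟩)

end HD.HW.H17
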